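import Pool.Agent.ANE.Stmts2

/-!
# Anderson model in dimension `≥ 3`: the end, third version (no `η` at all)

Decision (D3) of helper99. As `Stmts2.lean`, with a bound for the tail of the solution.
-/

set_option autoImplicit false

open MeasureTheory ProbabilityTheory Function Filter

open scoped ENNReal BigOperators InnerProductSpace Topology NNReal

noncomputable section

namespace Pool.Agent.ANE

open Pool.Agent.Anderson hiding box mem_box card_box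
open Pool.Agent.Loc Pool.Agent.Mob Pool.Agent.Helper54.Bal
  Pool.Agent.Helper96.EXP Pool.Agent.BED
open Pool.Agent.LE.MN Pool.Agent.LE.CL Pool.Agent.LE.IR Pool.Agent.LE.QD

universe u

/-- `(H - E) v = δ_0` in the middle of the torus, `∑ v² ≤ A`, `∑_{|x| > R} v² ≤ e²` -/
def SolT (d M : ℕ) [NeZero M] (E A e : ℝ) (R : ℕ) (U : Tor d M → ℝ) : Prop :=
  ∃ v : Tor d M → ℝ, ∑ x, v x ^ 2 ≤ A ∧
    ∑ x : Tor d M, (if R < sd 0 (rep x) then v x ^ 2 else 0) ≤ e ^ 2 ∧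
    ∀ x : Tor d M, 4 * sd 0 (rep x) ≤ M →
      ∑ i : Fin d, (v (x + ev i) + v (x - ev i)) + (U x - E) * v x = if x = 0 then 1 else 0

/-- TR3: THE INTERFACE with the analysis. -/
def Tr3Stmt : Prop :=
  ∀ (d : ℕ) (a : ℝ), 3 ≤ d → 0 < a → ∃ s₀ : ℝ, 0 < s₀ ∧ ∀ σ : ℝ, σ ≠ 0 → |σ| ≤ s₀ →
    ∀ᵐ E ∂((volume : Measure ℝ).restrict (Set.Ioo (-(2 * d - a)) (2 * d - a))),
      ∃ e : ℝ, 0 < e ∧ ∀ (A : ℝ) (R : ℕ), ∃ (M : ℕ) (_ : NeZero M), 8 ≤ M ∧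
        ∀ v : ℝ≥0, (v : ℝ) = σ ^ 2 →
          gau d M v {U | SolT d M E A e R U} ≤ ENNReal.ofReal (3 / 4)

/-- MS3: measurability (closed set, as `MsoStmt`). -/
def Ms3Stmt : Prop :=
  ∀ (d M : ℕ) [NeZero M] (E A e : ℝ) (R : ℕ), MeasurableSet {U : Tor d M → ℝ | SolT d M E A e R U}

/-- LA3: from the lattice to the torus. Proof: `H72.limit_sol` (`Helper72_ANE/Lat.lean`), the tail of a
summable series. -/
def La3Stmt : Prop :=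
  ∀ (d : ℕ) (V : Site d → ℝ) (E e : ℝ), 0 < e → Pool.Agent.AEN.Bd V E 0 →
    ∃ n₀ : ℕ, ∀ n : ℕ, n₀ ≤ n → ∀ (M : ℕ) [NeZero M], 8 ≤ M →
      SolT d M E n e n fun x : Tor d M => V (rep x)

/-- PR3 (uses LA3): `P (Bd) ≤ 3/4`. Proof: `{V | Bd V E 0}` is contained in the increasing union of
`{V | ∀ n' ≥ n, ∀ M ≥ 8, SolT d M E n' e n' (V ∘ rep)}`, each of probability `≤ 3/4` (`law_le` for the `M`
which belongs to `A = n`, `R = n`). -/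
def Pr3Stmt : Prop :=
  ∀ (d : ℕ) (σ E e : ℝ), σ ≠ 0 → 0 < e →
    (∀ (A : ℝ) (R : ℕ), ∃ (M : ℕ) (_ : NeZero M), 8 ≤ M ∧ ∀ v : ℝ≥0, (v : ℝ) = σ ^ 2 →
      gau d M v {U | SolT d M E A e R U} ≤ ENNReal.ofReal (3 / 4)) →
    PP d (gl σ) {V | ¬ Pool.Agent.AEN.Bd V E 0} ≠ 0

/-- OUT, deterministic part: `V` = the effective potential of the final state (with the real part of the
gauge), `U` = the true potential, `κ ≤ κ₁` the absorption, `Al` the alive sites, `χ` a plateau cutoff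
(constant on the bonds of dead sites, slope `lam`), `u` = the column `0` of the Green matrix. Proof: as
`KEY`: `Im u_0 ≤ |∑ κ χ v u| + |∑ χ v (U - V) u| + |∑ r u|`, `r_x = ∑_(y ~ x) (χ_y - χ_x) v_y` (only for
`x ∈ Al`), Cauchy-Schwarz. -/
def OutStmt : Prop :=
  ∀ (d M : ℕ) [NeZero M] (E A e κ₁ lam P Q W : ℝ) (R : ℕ) (U V κ χ : Tor d M → ℝ)
    (Al : Finset (Tor d M)), 0 ≤ e → 0 ≤ lam → 0 ≤ P → 0 ≤ Q → 0 ≤ W →
    (∀ x, 0 < κ x ∧ κ x ≤ κ₁) → χ 0 = 1 → (∀ x, 0 ≤ χ x ∧ χ x ≤ 1) →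
    (∀ x, χ x ≠ 0 → 4 * sd 0 (rep x) ≤ M) → (∀ x i, |χ (x + ev i) - χ x| ≤ lam) →
    (∀ x i, x ∉ Al ∨ x + ev i ∉ Al → χ (x + ev i) = χ x) →
    (∀ x, x ∉ Al → χ x ≠ 0 → U x = V x) →
    ∑ x ∈ Al.filter (fun x => sd 0 (rep x) ≤ R),
      (U x - V x) ^ 2 * ‖Pool.Agent.ANR.Gr (HV d M E V) κ x 0‖ ^ 2 ≤ P ^ 2 →
    ∑ x ∈ Al, (U x - V x) ^ 2 * ‖Pool.Agent.ANR.Gr (HV d M E V) κ x 0‖ ^ 2 ≤ Q ^ 2 →
    ∑ x ∈ Al, ‖Pool.Agent.ANR.Gr (HV d M E V) κ x 0‖ ^ 2 ≤ W ^ 2 → SolT d M E A e R U →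
    (Pool.Agent.ANR.Gr (HV d M E V) κ 0 0).im ≤
      κ₁ * A + 2 * (Real.sqrt A * P + e * Q + 2 * d * lam * Real.sqrt A * W)

/-- FN3 (uses PR3, SPC, `AEN.EndStmt`): continuous spectrum in the bulk at weak disorder. -/
def Fn3Stmt : Prop := Tr3Stmt → FinStmt.{u}

end Pool.Agent.ANE
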