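import Pool.Agent.AEN.Stmts
import Pool.Agent.LE.StmtsQX

/-!
# Anderson model in dimension `≥ 3`: from the tori to continuous spectrum, statements

Useful: `Pool.Agent.AEN.H76.en2T : En2Stmt` (`Helper76_AEN/All.lean`), `Pool.Agent.Mob.H69.cth :
CthStmt` (`Helper69_Mob/Cth.lean`), `Pool.Agent.LE.QX.H90` (`Helper90_LQX/EGB.lean`: the cutoff `ct`,
`rep_ti`, `rep_add`, `rep_sub`, `hz_mulVec`, `comm_bound`, `sum_rep`, `sum_shift`),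
`Pool.Agent.LE.IR.H54.law_le` (`Helper54_LIR/CPEb.lean`), `Pool.Agent.LE.CH.H77.erg : ErgStmt`
(`Helper77_LCH/ERG.lean`).
-/

set_option autoImplicit false

open MeasureTheory ProbabilityTheory Function Filter

open scoped ENNReal BigOperators InnerProductSpace Topology NNReal

noncomputable section

namespace Pool.Agent.ANE

open Pool.Agent.Anderson hiding box mem_box card_box
open Pool.Agent.Loc Pool.Agent.Mob Pool.Agent.Helper54.Bal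
  Pool.Agent.Helper96.EXP Pool.Agent.BED
open Pool.Agent.LE.MN Pool.Agent.LE.CL Pool.Agent.LE.IR Pool.Agent.LE.QD

universe u

/-- TOR: THE INTERFACE with the analysis (blocks P1 - P3, I0): at weak disorder and for almost every
energy of the bulk there are `c, p > 0` with `P (c ≤ Im G_00 (E + i η)) ≥ p` on a torus of side
`M ≥ η^{-2}`, for arbitrarily small `η`. -/
def TorStmt : Prop :=
  ∀ (d : ℕ) (a : ℝ), 3 ≤ d → 0 < a → ∃ s₀ : ℝ, 0 < s₀ ∧ ∀ σ : ℝ, σ ≠ 0 → |σ| ≤ s₀ →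
    ∀ᵐ E ∂((volume : Measure ℝ).restrict (Set.Ioo (-(2 * d - a)) (2 * d - a))),
      ∃ c p : ℝ, 0 < c ∧ 0 < p ∧ ∀ ε : ℝ, 0 < ε → ∃ (η : ℝ) (M : ℕ) (_ : NeZero M),
        0 < η ∧ η ≤ ε ∧ 1 ≤ η ^ 2 * M ∧ ∀ v : ℝ≥0, (v : ℝ) = σ ^ 2 →
          ENNReal.ofReal p ≤ gau d M v {V | c ≤ (rs V ⟨E, η⟩ 0 0).im}

/-- CTZ: the Green function at the origin on the lattice and on the torus. Proof: `C` large. If
`M < 16 (d + 1)` both numbers are at most `1 / η` in absolute value. Otherwise `u = G V z δ_0`,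
`L = (M - 3) / 4 ≥ 1`, `v x = ct L (rep x) * u (rep x)`: as in the proof of `egb`
(`Helper90_LQX/EGB.lean`) `hz W z *ᵥ v = δ_0 + r` with `r` = the commutator, which vanishes unless
`L ≤ sd 0 (rep x) ≤ 2 L`; `comm_bound` and `sum_rep` give `n2 r ≤ 8 d² ∑_{sd 0 y ≥ L - 1} ‖u y‖²`,
and `CthStmt` with `α = η / (8 (d + 1))` (`e^α - 1 ≤ 2 α`) gives `≤ 8 d² exp (-2 α (L - 1)) 4 / η²`.
`v = rs (δ_0 + r)`, so `v 0 - rs 0 0 = (rs r) 0`, at most `(1 / η) √(n2 r)`. -/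
def CtzStmt : Prop :=
  ∀ d : ℕ, ∃ C : ℝ, 1 ≤ C ∧ ∀ (M : ℕ) [NeZero M] (V : Site d → ℝ) (E η : ℝ), 0 < η → η ≤ 1 →
    ‖G V (zz η E) (del 0) 0 - rs (fun x : Tor d M => V (rep x)) ⟨E, η⟩ 0 0‖ ≤
      C / η ^ 2 * Real.exp (-(η * M / C))

/-- MRS: measurability. Proof: the inverse of a matrix is `Ring.inverse det • adjugate`, the entries
are measurable (continuous) functions of `V`; or: continuity of `V ↦ rs V z` for `z.im ≠ 0`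
(see `Helper60_LQY/Base.lean`). -/
def MrsStmt : Prop :=
  ∀ (d M : ℕ) [NeZero M] (z : ℂ) (x y : Tor d M), 0 < z.im →
    Measurable fun V : Tor d M → ℝ => rs V z x y

/-- LAW (uses CTZ, MRS): the transfer of probabilities. Proof: `law_le` (`b = 0`) for the event
`¬ P`, or the equality of the laws in its proof, with `MrsStmt`. Take `A + 1` in the place of `A` and
`ε` so small that `C / η² * exp (-(η M / C)) ≤ η` if `η ≤ ε`, `η M ≥ 1 / η`. -/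
def LawStmt : Prop :=
  ∀ (d : ℕ) (σ E : ℝ) (p : ℝ≥0∞), σ ≠ 0 →
    (∀ A ε : ℝ, 0 < ε → ∃ (η : ℝ) (M : ℕ) (_ : NeZero M), 0 < η ∧ η ≤ ε ∧ 1 ≤ η ^ 2 * M ∧
      ∀ v : ℝ≥0, (v : ℝ) = σ ^ 2 → p ≤ gau d M v {V | A * η ≤ (rs V ⟨E, η⟩ 0 0).im}) →
    ∀ A : ℝ, ∃ η : ℝ, 0 < η ∧ p ≤ PP d (gl σ) {V | A * η ≤ (G V (zz η E) (del 0) 0).im}

/-- `|V - l| ≤ δ` on the cube of radius `n` at `b` -/
def FlB {d : ℕ} (V : Site d → ℝ) (l δ : ℝ) (n : ℕ) (b : Site d) : Prop :=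
  ∀ y : Site d, sd b y ≤ n → |V y - l| ≤ δ

/-- WEY: Weyl vectors in flat cubes. Proof: `ψ y = max 0 (n - sd b y)`, finitely supported,
`|∑ (ψ (y ± e_i) - ψ y)| ≤ 2 d`, zero for `sd b y > n`; `‖ψ‖² ≥ (n / 2)² n^d` up to a constant,
`‖lap ψ - 2 d ψ‖² ≤ 4 d² (2 n + 1)^d`. Normalize. -/
def WeyStmt : Prop :=
  ∀ d : ℕ, ∃ C : ℝ, 1 ≤ C ∧ ∀ (V : Site d → ℝ) (l δ : ℝ) (n : ℕ) (b : Site d), 1 ≤ n → 0 ≤ δ →
    FlB V l δ n b → ∃ φ : L2 d, ‖φ‖ = 1 ∧ (∀ y, n < sd b y → φ y = 0) ∧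
      IsQuasi V (C * (1 / n + δ)) (l + 2 * d) φ

/-- FLT: there are flat cubes. Proof: for fixed `l δ n` the set `A = {V | ∃ b, FlB V l δ n b}` is
measurable and invariant under `tau`; it contains `{V | FlB V l δ n 0}`, whose probability is a
finite product of numbers `gl σ [l - δ, l + δ] > 0` (`Measure.infinitePi_pi`); `ErgStmt` for `1 ≤ d`. -/
def FltStmt : Prop :=
  ∀ (d : ℕ) (σ : ℝ), 1 ≤ d → σ ≠ 0 → ∀ᵐ V ∂(PP d (gl σ)), ∀ (l : ℚ) (k n : ℕ),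
    ∃ b : Site d, FlB V l (1 / (k + 1)) n b

/-- SPC (uses WEY, FLT): the spectrum is the whole line. Proof: a rational `l` with
`|l - (E₀ - 2 d)| ≤ ε / 4`, large `n`, `k`. -/
def SpcStmt : Prop :=
  ∀ (d : ℕ) (σ : ℝ), 1 ≤ d → σ ≠ 0 → ∀ᵐ V ∂(PP d (gl σ)), ∀ E₀ ε : ℝ, 0 < ε →
    ∃ φ : L2 d, ‖φ‖ = 1 ∧ {x : Site d | φ x ≠ 0}.Finite ∧ IsQuasi V ε E₀ φ

/-- FIN (uses TOR, LAW, SPC, `AEN.En2Stmt`): continuous spectrum in the bulk at weak disorder.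
Proof: `TorStmt` gives the hypothesis of `LawStmt` with `p = ENNReal.ofReal p`
(`A * η ≤ c` if `η ≤ c / (|A| + 1)`, `measure_mono`), `En2Stmt` with the interval
`(-(2 d - a), 2 d - a)`. The law of `V y = σ ξ y` is `PP d (gl σ)` (see the other final theorems,
for example `Helper77_LCH` / `Results/MP_1906c1_mp/LyapunovExponent.lean`). -/
def FinStmt : Prop :=
  ∀ (d : ℕ) (a : ℝ), 3 ≤ d → 0 < a → ∃ s₀ : ℝ, 0 < s₀ ∧ ∀ σ : ℝ, σ ≠ 0 → |σ| ≤ s₀ →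
    ∀ (Ω : Type u) [MeasurableSpace Ω] (P : Measure Ω) [IsProbabilityMeasure P]
      (ξ : Site d → Ω → ℝ), (∀ y, Measurable (ξ y)) → (∀ y, P.map (ξ y) = gaussianReal 0 1) →
      iIndepFun ξ P → ∀ᵐ ω ∂P,
        (∀ E₀ ε : ℝ, 0 < ε → ∃ φ : L2 d, ‖φ‖ = 1 ∧ {x : Site d | φ x ≠ 0}.Finite ∧
          IsQuasi (fun y => σ * ξ y ω) ε E₀ φ) ∧
        ∀ E₀ : ℝ, |E₀| < 2 * d - a → ∀ φ : L2 d, IsEigen (fun y => σ * ξ y ω) E₀ φ → φ = 0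

end Pool.Agent.ANE
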