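import Pool.Agent.ANE.Stmts
import Pool.Agent.ANR.Stmts

/-!
# Anderson model in dimension `≥ 3`: the end, second version (absorption only on the alive sites)

The torus statement contains no `η`: the set `Sol d M E A` of the potentials on the torus for which
`(H - E) v = δ_0` has a solution with `∑ v² ≤ A` in the middle of the torus. If `G_(E + i 0) δ_0` is
bounded in `ℓ²(ℤ^d)` with positive probability ... : `Bd V E 0` implies `Sol` on every torus (`LAT`), so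
`P (Sol) ≤ 1 - p` for every `A`, for some torus, gives `P (Bd V E 0) ≤ 1 - p`, and `AEN.EndStmt` gives
the absence of eigenvalues. In a good final state of the flow `Sol` is impossible (`KEY`).
-/

set_option autoImplicit false

open MeasureTheory ProbabilityTheory Function Filter

open scoped ENNReal BigOperators InnerProductSpace Topology NNReal

noncomputable section

namespace Pool.Agent.ANE

open Pool.Agent.Anderson hiding box mem_box card_box
open Pool.Agent.Loc Pool.Agent.Mob Pool.Agent.Helper54.Bal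
  Pool.Agent.Helper96.EXP Pool.Agent.BED
open Pool.Agent.LE.MN Pool.Agent.LE.CL Pool.Agent.LE.IR Pool.Agent.LE.QD

universe u

/-- `(H - E) v = δ_0` in the middle of the torus, `∑ v² ≤ A` -/
def Sol (d M : ℕ) [NeZero M] (E A : ℝ) (U : Tor d M → ℝ) : Prop :=
  ∃ v : Tor d M → ℝ, ∑ x, v x ^ 2 ≤ A ∧ ∀ x : Tor d M, 4 * sd 0 (rep x) ≤ M →
    ∑ i : Fin d, (v (x + ev i) + v (x - ev i)) + (U x - E) * v x = if x = 0 then 1 else 0

/-- TR2: THE INTERFACE with the analysis (blocks P1 - P3, I0). (`F = {U | Sol d M E A U}` in `ANP`: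
`MSO` says that it is measurable; `ANP.Ana.out` follows from `KEY`.) -/
def Tr2Stmt : Prop :=
  ∀ (d : ℕ) (a : ℝ), 3 ≤ d → 0 < a → ∃ s₀ : ℝ, 0 < s₀ ∧ ∀ σ : ℝ, σ ≠ 0 → |σ| ≤ s₀ →
    ∀ᵐ E ∂((volume : Measure ℝ).restrict (Set.Ioo (-(2 * d - a)) (2 * d - a))),
      ∃ p : ℝ, 0 < p ∧ ∀ A : ℝ, ∃ (M : ℕ) (_ : NeZero M), 8 ≤ M ∧ ∀ v : ℝ≥0, (v : ℝ) = σ ^ 2 →
        gau d M v {U | Sol d M E A U} ≤ ENNReal.ofReal (1 - p)

/-- MSO: measurability. Proof: the set is closed: the image of the closed set of the pairs `(U, v)` under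
the projection along the compact set `∑ v² ≤ A` (`IsClosed.snd`/`isClosedMap_fst_of_compactSpace` or
sequences). -/
def MsoStmt : Prop :=
  ∀ (d M : ℕ) [NeZero M] (E A : ℝ), MeasurableSet {U : Tor d M → ℝ | Sol d M E A U}

/-- LAT: from the lattice to the torus. Proof: the vectors `g n = Gn V E n 0` are bounded by `C` in
`ℓ²`; limit along an ultrafilter in each coordinate (or a subsequence), real part: a real function `v`
on `ℤ^d` with `∑ v² ≤ C²`, `lap v + (V - E) v = δ_0` (`G_eq`, `z → E`). Restrict it: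
`v' x = v (rep x)` (`rep_add`, `rep_sub` in `Helper90_LQX/EGB.lean`, `rep` injective). -/
def LatStmt : Prop :=
  ∀ (d M : ℕ) [NeZero M] (V : Site d → ℝ) (E C : ℝ), 8 ≤ M →
    (∀ n, ‖Pool.Agent.AEN.Gn V E n 0‖ ≤ C) → Sol d M E (C ^ 2) fun x : Tor d M => V (rep x)

/-- PR2 (uses LAT): `P (Bd) ≤ 1 - p < 1`. Proof: `law_le` (`Helper54_LIR/CPEb.lean`) for the event
`¬ Sol`; `{V | Bd V E 0}` is the increasing union of `{V | ∀ n, ‖Gn V E n 0‖ ≤ C}`, `C ∈ ℕ`. -/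
def Pr2Stmt : Prop :=
  ∀ (d : ℕ) (σ E p : ℝ), σ ≠ 0 → 0 < p →
    (∀ A : ℝ, ∃ (M : ℕ) (_ : NeZero M), 8 ≤ M ∧ ∀ v : ℝ≥0, (v : ℝ) = σ ^ 2 →
      gau d M v {U | Sol d M E A U} ≤ ENNReal.ofReal (1 - p)) →
    PP d (gl σ) {V | ¬ Pool.Agent.AEN.Bd V E 0} ≠ 0

/-- the Hamiltonian minus `E` on the torus -/
def HV (d M : ℕ) [NeZero M] (E : ℝ) (V : Tor d M → ℝ) : Matrix (Tor d M) (Tor d M) ℝ :=
  adj d M + Matrix.diagonal fun x => V x - E

/-- KEY: in a good final state there is no solution. `V` = the applied potential (with the real part of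
the gauge), `U` = the true potential, `κ` = the absorption (arbitrarily small `> 0` off the alive sites
`Al`), `ρ` = the alive distance from the origin. Proof: `G = Gr (HV ..) κ`, `u` = the column `0`,
`χ = 1` where `ρ < R`, `0` elsewhere, `v' = χ v`. `∑_x v'_x (δ_0 + i κ_x u_x) = ∑_x v'_x (HV u)_x =
∑_x (HV v')_x u_x = u_0 - ∑ χ (U - V) v u + ∑ r u`, `r_x = ∑_(y ~ x) (χ_y - χ_x) v_y`, imaginary parts:
`Im u_0 ≤ ∑ κ |v'| |u| + |errors| ≤ (2 η A)^(1/2) (Im u_0)^(1/2) + ..` (`∑ κ |u|² = Im u_0 ≤ 1/η`, GEQ). The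
first error: `δ √A / η`. The second: `r_x ≠ 0` only for `x ∈ Al`, `ρ x ≥ R - 1`, there
`|u_x| ≤ (2/η) e^{-a (R - 1)}`, `a = η / (8 (d + 1))` (`rng` in `Helper92_ANR/Ctp.lean`). -/
def KeyStmt : Prop :=
  ∀ (d M : ℕ) [NeZero M] (E η δ A : ℝ) (R : ℕ) (U V κ : Tor d M → ℝ) (Al : Finset (Tor d M))
    (ρ : Tor d M → ℕ), 0 < η → η ≤ 1 → 0 ≤ δ → (∀ x, 0 < κ x) → (∀ x ∈ Al, η ≤ κ x) →
    0 ∈ Al → ρ 0 = 0 → 1 ≤ R → (∀ x i, ρ (x + ev i) ≤ ρ x + 1 ∧ ρ x ≤ ρ (x + ev i) + 1) →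
    (∀ x i, x ∉ Al ∨ x + ev i ∉ Al → ρ (x + ev i) = ρ x) →
    (∀ x, ρ x < R → 4 * sd 0 (rep x) ≤ M ∧ κ x ≤ 2 * η ∧ (x ∈ Al → |U x - V x| ≤ δ) ∧
      (x ∉ Al → U x = V x)) → Sol d M E A U →
    (Pool.Agent.ANR.Gr (HV d M E V) κ 0 0).im ≤ 2 * η * A + 2 * δ * Real.sqrt A / η +
      8 * d / η * Real.sqrt ((M : ℝ) ^ d * A) * Real.exp (-(η * (R - 1) / (8 * (d + 1))))

/-- FN2 (uses TR2, PR2, SPC, `AEN.EndStmt`): continuous spectrum in the bulk at weak disorder. -/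
def Fn2Stmt : Prop := Tr2Stmt → FinStmt.{u}

end Pool.Agent.ANE
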